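import Pool.Agent.P8H14.CN.Stm2
import Pool.Agent.P8H14.CN.Wd
import Pool.Agent.P8H85.CN.Clp

/-!
# CN: a popular class number
-/

set_option autoImplicit false

namespace Pool.Agent.P8H22.CN

open Finset Filter NumberField Pool.Agent.H38R2.CG Pool.Agent.P8H14.CN
open scoped Classical

lemma hq_field {p : ℕ} (hp : p.Prime) : ∃ (K : Type) (_ : Field K) (_ : NumberField K),
    Module.finrank ℚ K = 2 ∧ (∃ x : K, x ^ 2 = (p : K)) ∧ classNumber K = hq p := by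
  have hsq : Squarefree p := hp.prime.squarefree
  obtain ⟨K, i1, i2, h1, h2⟩ := exists_field hp.one_lt hsq
  have h : {n : ℕ | ∃ (K : Type) (_ : Field K) (_ : NumberField K),
      Module.finrank ℚ K = 2 ∧ (∃ x : K, x ^ 2 = (p : K)) ∧ classNumber K = n}.Nonempty :=
    ⟨classNumber K, K, i1, i2, h1, h2, rfl⟩
  exact Nat.sInf_mem h

lemma hq_bound {δ : ℝ} (hδ : 0 < δ) (hδ2 : δ < 1 / 2) {X p : ℕ} (hX : 2 ≤ X) (hp : p.Prime)
    (hpX : p ≤ X) (hc1 : √(X : ℝ) < (p : ℝ)) (hg : GoodC δ p) :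
    1 ≤ hq p ∧ (hq p : ℝ) ≤ 3 * √(X : ℝ) / Real.log X ^ (3 / 2 - δ) := by
  obtain ⟨K, i1, i2, hK1, hK2, hK3⟩ := hq_field hp
  have hX1 : (1 : ℝ) < X := by exact_mod_cast (by omega : 1 < X)
  have hl : 0 < Real.log X := Real.log_pos hX1
  have hpX' : (p : ℝ) ≤ X := by exact_mod_cast hpX
  have hs : 0 < √(X : ℝ) := Real.sqrt_pos.mpr (by linarith)
  have hsp : √(p : ℝ) ≤ √(X : ℝ) := Real.sqrt_le_sqrt hpX'
  refine ⟨?_, ?_⟩
  · rw [← hK3]
    exact Fintype.card_pos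
  · have h3 := hg K hK1 hK2
    rw [hK3] at h3
    have h4 : Real.log X / 2 ≤ Real.log p := by
      rw [← Real.log_sqrt (by linarith)]
      exact Real.log_le_log hs hc1.le
    have h5 : (Real.log X / 2) ^ (3 / 2 - δ) ≤ Real.log p ^ (3 / 2 - δ) :=
      Real.rpow_le_rpow (by linarith) h4 (by linarith)
    have h6 : (Real.log X / 2) ^ (3 / 2 - δ) = Real.log X ^ (3 / 2 - δ) / 2 ^ (3 / 2 - δ) :=
      Real.div_rpow hl.le (by norm_num) _
    have h7 : (2 : ℝ) ^ (3 / 2 - δ) ≤ 3 := by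
      calc (2 : ℝ) ^ (3 / 2 - δ) ≤ (2 : ℝ) ^ (3 / 2 : ℝ) :=
            Real.rpow_le_rpow_of_exponent_le (by norm_num) (by linarith)
        _ ≤ 3 := by
            have h : ((2 : ℝ) ^ (3 / 2 : ℝ)) ^ 2 = 8 := by
              rw [← Real.rpow_natCast, ← Real.rpow_mul (by norm_num),
                show (3 / 2 : ℝ) * ((2 : ℕ) : ℝ) = ((3 : ℕ) : ℝ) by norm_num, Real.rpow_natCast]
              norm_num
            have h0 : 0 ≤ (2 : ℝ) ^ (3 / 2 : ℝ) := by positivity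
            nlinarith
    have h8 : 0 < (2 : ℝ) ^ (3 / 2 - δ) := by positivity
    have h9 : 0 < Real.log X ^ (3 / 2 - δ) := Real.rpow_pos_of_pos hl _
    have h10 : Real.log X ^ (3 / 2 - δ) / 3 ≤ Real.log p ^ (3 / 2 - δ) := by
      refine le_trans ?_ (h6 ▸ h5)
      exact div_le_div_of_nonneg_left h9.le h8 h7
    have h11 : √(p : ℝ) / Real.log p ^ (3 / 2 - δ) ≤ 3 * √(X : ℝ) / Real.log X ^ (3 / 2 - δ) := by
      rw [show 3 * √(X : ℝ) / Real.log X ^ (3 / 2 - δ) =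
        √(X : ℝ) / (Real.log X ^ (3 / 2 - δ) / 3) by field_simp]
      exact div_le_div₀ hs.le hsp (by positivity) h10
    linarith

theorem pop : S_CLP → S_POP := by
  intro hclp δ hδ hδ2
  refine ⟨1 / 12, by norm_num, ?_⟩
  have h1 := (hclp δ hδ hδ2).eventually (gt_mem_nhds (show (0 : ℝ) < 1 / 4 by norm_num))
  have tX : Tendsto (fun X : ℕ => (X : ℝ)) atTop atTop := tendsto_natCast_atTop_atTop
  have h2 : ∀ᶠ X : ℕ in atTop, Real.log (X : ℝ) ≤ 1 / 8 * (X : ℝ) ^ (1 / 2 : ℝ) := by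
    have := (isLittleO_log_rpow_atTop (show (0 : ℝ) < 1 / 2 by norm_num)).bound
      (show (0 : ℝ) < 1 / 8 by norm_num)
    filter_upwards [tX.eventually this, eventually_ge_atTop 1] with X hX h1
    have h1' : (1 : ℝ) ≤ X := by exact_mod_cast h1
    rwa [Real.norm_of_nonneg (Real.log_nonneg h1'), Real.norm_of_nonneg (by positivity)] at hX
  obtain ⟨X₀, hX₀⟩ := eventually_atTop.1 ((h1.and h2).and (Pool.Agent.P8H85.CN.pi_ge.and
    (eventually_ge_atTop 3)))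
  refine ⟨X₀, fun X hX => ?_⟩
  obtain ⟨⟨hb, hlog⟩, hpi, h3⟩ := hX₀ X hX
  have hX3 : (3 : ℝ) ≤ X := by exact_mod_cast h3
  have hl : 0 < Real.log (X : ℝ) := Real.log_pos (by linarith)
  have hs : 0 < √(X : ℝ) := Real.sqrt_pos.mpr (by linarith)
  have hss : √(X : ℝ) * √(X : ℝ) = X := Real.mul_self_sqrt (by linarith)
  rw [← Real.sqrt_eq_rpow] at hlog
  have hcp := Pool.Agent.P8H85.CN.card_primes X
  rw [hcp] at hb
  set P : ℝ := (Nat.primeCounting X : ℝ) with hP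
  have hPpos : 0 < P := by
    by_contra hcon
    have : P ≤ 0 := not_lt.1 hcon
    nlinarith
  rw [div_lt_iff₀ hPpos] at hb
  -- the small primes
  have hsm : √(X : ℝ) ≤ P / 4 := by
    have h5 : √(X : ℝ) * (8 * Real.log X) ≤ X := by nlinarith
    have h6 : √(X : ℝ) * (8 * Real.log X) ≤ P / 4 * (8 * Real.log X) := by nlinarith
    exact le_of_mul_le_mul_right h6 (by positivity)
  set G : Finset ℕ := (Icc 2 X).filter (fun p => p.Prime ∧ (√(X : ℝ) < p ∧ GoodC δ p)) with hG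
  have hcover : (Icc 2 X).filter Nat.Prime ⊆
      (G ∪ (Icc 2 X).filter (fun p => p.Prime ∧ ¬ GoodC δ p)) ∪ Icc 1 ⌊√(X : ℝ)⌋₊ := by
    intro p hp
    rw [mem_filter] at hp
    rw [mem_union, mem_union, hG, mem_filter, mem_filter]
    by_cases h5 : √(X : ℝ) < p
    · left
      by_cases h6 : GoodC δ p
      · exact Or.inl ⟨hp.1, hp.2, h5, h6⟩
      · exact Or.inr ⟨hp.1, hp.2, h6⟩
    · right
      rw [mem_Icc]
      exact ⟨hp.2.one_lt.le, Nat.le_floor (not_lt.1 h5)⟩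
  have hcard : P ≤ (G.card : ℝ) +
      (((Icc 2 X).filter (fun p => p.Prime ∧ ¬ GoodC δ p)).card : ℝ) + √(X : ℝ) := by
    have h5 := (card_le_card hcover).trans ((card_union_le _ _).trans
      (Nat.add_le_add_right (card_union_le _ _) _))
    rw [hcp, Nat.card_Icc, Nat.add_sub_cancel] at h5
    have h6 : (Nat.primeCounting X : ℝ) ≤ (G.card : ℝ) +
      (((Icc 2 X).filter (fun p => p.Prime ∧ ¬ GoodC δ p)).card : ℝ) + (⌊√(X : ℝ)⌋₊ : ℝ) := by
      exact_mod_cast h5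
    have h7 : (⌊√(X : ℝ)⌋₊ : ℝ) ≤ √(X : ℝ) := Nat.floor_le hs.le
    linarith
  have hGc : P / 2 ≤ G.card := by linarith
  have hGX : (X : ℝ) / (4 * Real.log X) ≤ G.card := by
    refine le_trans ?_ hGc
    rw [div_le_iff₀ (by positivity)]
    nlinarith
  set T : ℝ := 3 * √(X : ℝ) / Real.log X ^ (3 / 2 - δ) with hT
  have hLp : 0 < Real.log (X : ℝ) ^ (3 / 2 - δ) := Real.rpow_pos_of_pos hl _
  have hTpos : 0 < T := by positivity
  have hbd : ∀ p ∈ G, hq p ∈ Icc 1 ⌊T⌋₊ := by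
    intro p hp
    rw [hG, mem_filter, mem_Icc] at hp
    obtain ⟨h5, h6⟩ := hq_bound hδ hδ2 (by omega) hp.2.1 hp.1.2 hp.2.2.1 hp.2.2.2
    rw [mem_Icc]
    exact ⟨h5, Nat.le_floor h6⟩
  have hGne : G.Nonempty := by
    rw [← card_pos]
    have : (0 : ℝ) < G.card := by linarith
    exact_mod_cast this
  have hne : (Icc 1 ⌊T⌋₊).Nonempty := by
    obtain ⟨p, hp⟩ := hGne
    exact ⟨_, hbd p hp⟩
  have hnum : (((Icc 1 ⌊T⌋₊).card : ℕ)) • (1 / 12 * √(X : ℝ) * Real.log X ^ (1 / 2 - δ)) ≤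
      (G.card : ℝ) := by
    rw [nsmul_eq_mul, Nat.card_Icc, Nat.add_sub_cancel]
    refine le_trans (mul_le_mul_of_nonneg_right (Nat.floor_le hTpos.le) (by positivity)) ?_
    refine le_trans (le_of_eq ?_) hGX
    have h5 : Real.log (X : ℝ) ^ (3 / 2 - δ) = Real.log X ^ (1 / 2 - δ) * Real.log X := by
      rw [show (3 / 2 - δ : ℝ) = (1 / 2 - δ) + 1 by ring, Real.rpow_add hl, Real.rpow_one]
    have h6 : 0 < Real.log (X : ℝ) ^ (1 / 2 - δ) := Real.rpow_pos_of_pos hl _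
    rw [hT, h5]
    field_simp
    nlinarith
  obtain ⟨h₀, hh, hcnt⟩ := Finset.exists_le_card_fiber_of_nsmul_le_card_of_maps_to hbd hne hnum
  rw [mem_Icc] at hh
  refine ⟨h₀, hh.1, ?_, hcnt.trans ?_⟩
  · exact (Nat.le_floor_iff hTpos.le).1 hh.2
  · have : (G.filter (fun p => hq p = h₀)).card ≤
        ((Icc 2 X).filter (fun p => p.Prime ∧ hq p = h₀)).card := by
      refine card_le_card fun p hp => ?_
      rw [mem_filter, hG, mem_filter] at hp
      rw [mem_filter]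
      exact ⟨hp.1.1, hp.1.2.1, hp.2⟩
    exact_mod_cast this

end Pool.Agent.P8H22.CN
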